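import Mathlib
import Pool.Agent.H83.Lo.Psi2
import Pool.Agent.H83.Lo.Moments

set_option autoImplicit false

/-! Affine changes of the normalised maps, uniqueness of the coefficients, the coefficients of a
quotient of two maps with poles at the same flat boundary point. -/

namespace Pool.Agent.H83.Lo

open Complex Metric Set Filter Topology
open scoped ComplexConjugate

lemma affine_mem {α : ℝ} (hα : 0 < α) (x₀ : ℝ) (w : ℂ) : w ∈ UH ↔ w / α + x₀ ∈ UH := by
  rw [mem_UH, mem_UH, Complex.add_im, Complex.ofReal_im, add_zero, Complex.div_ofReal_im]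
  constructor
  · intro h
    positivity
  · intro h
    by_contra hcon
    push Not at hcon
    have := div_nonpos_of_nonpos_of_nonneg hcon hα.le
    linarith

lemma affine_tendsto {α : ℝ} (hα : 0 < α) (x₀ : ℝ) :
    Tendsto (fun w : ℂ => w / α + x₀) atUH atUH := by
  rw [tendsto_atUH]
  constructor
  · have h1 : Tendsto (fun z : ℂ => ‖z‖ / α - ‖(x₀ : ℂ)‖) atUH atTop := by
      apply tendsto_atTop_add_const_right
      exact tendsto_norm_atUH.atTop_div_const hα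
    apply tendsto_atTop_mono _ h1
    intro z
    have : ‖z / α‖ ≤ ‖z / α + x₀‖ + ‖(x₀ : ℂ)‖ := by
      calc ‖z / α‖ = ‖(z / α + x₀) - x₀‖ := by congr 1; ring
        _ ≤ _ := _root_.norm_sub_le _ _
    have h2 : ‖z / α‖ = ‖z‖ / α := by
      rw [norm_div, Complex.norm_real, Real.norm_eq_abs, abs_of_pos hα]
    linarith
  · filter_upwards [eventually_mem_UH] with z hz
    exact (affine_mem hα x₀ z).1 hz

namespace Hyd

variable {U : Set ℂ} {g T : ℂ → ℂ} {c : ℝ}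

/-- Affine change of coordinates. -/
theorem affine (h : Hyd U g c) {α : ℝ} (hα : 0 < α) (x₀ : ℝ) :
    Hyd ((fun w : ℂ => w / α + x₀) ⁻¹' U) (fun w => α * (g (w / α + x₀) - x₀)) (α ^ 2 * c) := by
  have hαc : (α : ℂ) ≠ 0 := by exact_mod_cast hα.ne'
  have hten := affine_tendsto hα x₀
  have hcont : Continuous (fun z : ℂ => z / α + x₀) := by fun_prop
  refine ⟨h.isOpen.preimage hcont, fun z hz => (affine_mem hα x₀ z).2 (h.sub hz),
    eventually_atUH.1 (hten.eventually h.mem_far), ?_, ⟨?_, ?_, ?_⟩, ?_⟩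
  · apply DifferentiableOn.const_mul
    apply DifferentiableOn.sub_const
    exact h.diff.comp (s := (fun w : ℂ => w / α + x₀) ⁻¹' U) (f := fun w : ℂ => w / α + x₀)
      (by fun_prop) (fun z hz => hz)
  · intro z hz
    have h1 := h.bij.mapsTo hz
    rw [mem_UH] at h1 ⊢
    simp only
    rw [Complex.im_ofReal_mul, Complex.sub_im, Complex.ofReal_im, sub_zero]
    positivity
  · intro z hz z' hz' heq
    simp only at heq
    have h1 := h.bij.injOn hz hz' (sub_left_injective (mul_left_cancel₀ hαc heq))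
    simp only [add_left_inj] at h1
    exact (div_left_inj' hαc).1 h1
  · intro w hw
    obtain ⟨v, hv, hv2⟩ := h.bij.surjOn ((affine_mem hα x₀ w).1 hw)
    have e1 : (α : ℂ) * (v - x₀) / α + x₀ = v := by field_simp; ring
    refine ⟨α * (v - x₀), ?_, ?_⟩
    · rw [mem_preimage, e1]
      exact hv
    · simp only
      rw [e1, hv2]
      field_simp
      ring
  · -- the limit
    have h1 : Tendsto (fun v : ℂ => (α : ℂ) ^ 2 * (1 - x₀ * v⁻¹) * (v * (g v - v))) atUH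
        (𝓝 ((α : ℂ) ^ 2 * (1 - x₀ * 0) * c)) :=
      (((tendsto_inv_atUH.const_mul (x₀ : ℂ)).const_sub 1).const_mul _).mul h.lim
    have e2 : ((α : ℂ) ^ 2 * (1 - x₀ * 0) * c) = ((α ^ 2 * c : ℝ) : ℂ) := by push_cast; ring
    rw [e2] at h1
    apply (h1.comp hten).congr'
    filter_upwards [hten.eventually eventually_mem_UH] with w hw
    have hw0 : w / α + x₀ ≠ 0 := jk_ne hw
    simp only [Function.comp]
    set v := w / α + x₀ with hv
    have e3 : w = α * (v - x₀) := by rw [hv]; field_simp; ring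
    rw [e3]
    field_simp
    ring

theorem Inv.affine (hT : Inv U g T c) {α : ℝ} (hα : 0 < α) (x₀ : ℝ) :
    Inv ((fun w : ℂ => w / α + x₀) ⁻¹' U) (fun w => α * (g (w / α + x₀) - x₀))
      (fun w => α * (T (w / α + x₀) - x₀)) (α ^ 2 * c) := by
  have hαc : (α : ℂ) ≠ 0 := by exact_mod_cast hα.ne'
  have hten := affine_tendsto hα x₀
  have e0 : ∀ v : ℂ, (α : ℂ) * (v - x₀) / α + x₀ = v := by
    intro v
    field_simp
    ring
  refine ⟨?_, ?_, ?_, ?_, ?_, ?_⟩
  · apply DifferentiableOn.const_mul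
    apply DifferentiableOn.sub_const
    apply hT.diff.comp _ (fun z hz => (affine_mem hα x₀ z).1 hz)
    fun_prop
  · intro w hw
    rw [mem_preimage, e0]
    exact hT.maps ((affine_mem hα x₀ w).1 hw)
  · intro z hz
    rw [e0, hT.left _ hz]
    field_simp
    ring
  · intro w hw
    rw [e0, hT.right _ ((affine_mem hα x₀ w).1 hw)]
    field_simp
    ring
  · have h1 : Tendsto (fun v : ℂ => (α : ℂ) * (v - x₀)) atUH atUH := by
      have h2 := affine_tendsto (inv_pos.2 hα) (-(α * x₀))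
      apply h2.congr
      intro v
      push_cast
      field_simp
      ring
    exact (h1.comp (hT.inf.comp hten))
  · have h1 : Tendsto (fun v : ℂ => (α : ℂ) ^ 2 * (1 - x₀ * v⁻¹) * (v * (T v - v))) atUH
        (𝓝 ((α : ℂ) ^ 2 * (1 - x₀ * 0) * -(c : ℂ))) :=
      (((tendsto_inv_atUH.const_mul (x₀ : ℂ)).const_sub 1).const_mul _).mul hT.lim
    have e2 : ((α : ℂ) ^ 2 * (1 - x₀ * 0) * -(c : ℂ)) = -((α ^ 2 * c : ℝ) : ℂ) := by
      push_cast; ring
    rw [e2] at h1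
    apply (h1.comp hten).congr'
    filter_upwards [hten.eventually eventually_mem_UH] with w hw
    have hw0 : w / α + x₀ ≠ 0 := jk_ne hw
    simp only [Function.comp]
    set v := w / α + x₀ with hv
    have e3 : w = α * (v - x₀) := by rw [hv]; field_simp; ring
    rw [e3]
    field_simp
    ring

theorem Inv.congr (hg : Hyd U g c) (hT : Inv U g T c) {T₁ : ℂ → ℂ} (h : EqOn T T₁ UH) :
    Inv U g T₁ c := by
  have h1 : T =ᶠ[atUH] T₁ := by
    filter_upwards [eventually_mem_UH] with w hw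
    exact h hw
  refine ⟨hT.diff.congr (fun w hw => (h hw).symm), ?_, ?_, ?_, hT.inf.congr' h1, ?_⟩
  · intro w hw
    rw [← h hw]
    exact hT.maps hw
  · intro z hz
    rw [← h (hg.bij.mapsTo hz)]
    exact hT.left z hz
  · intro w hw
    rw [← h hw]
    exact hT.right w hw
  · apply hT.lim.congr'
    filter_upwards [h1] with w hw
    rw [hw]

theorem Coef.affine {a₂ a₃ : ℝ} (hC : Coef T c a₂ a₃) {α : ℝ} (hα : 0 < α) (x₀ : ℝ) :
    Coef (fun w => α * (T (w / α + x₀) - x₀)) (α ^ 2 * c) (α ^ 3 * (a₂ - x₀ * c))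
      (α ^ 4 * (a₃ - 2 * x₀ * a₂ + x₀ ^ 2 * c)) := by
  have hαc : (α : ℂ) ≠ 0 := by exact_mod_cast hα.ne'
  have hten := affine_tendsto hα x₀
  constructor
  have h0 := tendsto_inv_atUH
  have h1 : Tendsto (fun v : ℂ => (α : ℂ) ^ 4 * ((1 - x₀ * v⁻¹) ^ 3 *
      (v ^ 3 * (v - T v - c / v - a₂ / v ^ 2)) + c * x₀ ^ 2 * (1 - x₀ * v⁻¹) +
      a₂ * (-2 * x₀ + x₀ ^ 2 * v⁻¹) * (1 - x₀ * v⁻¹))) atUH
      (𝓝 ((α : ℂ) ^ 4 * ((1 - x₀ * 0) ^ 3 * a₃ + c * x₀ ^ 2 * (1 - x₀ * 0) +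
        a₂ * (-2 * x₀ + x₀ ^ 2 * 0) * (1 - x₀ * 0)))) := by
    have k1 : Tendsto (fun v : ℂ => 1 - x₀ * v⁻¹) atUH (𝓝 (1 - x₀ * 0)) :=
      (h0.const_mul (x₀ : ℂ)).const_sub 1
    have k2 : Tendsto (fun v : ℂ => -2 * (x₀ : ℂ) + (x₀ : ℂ) ^ 2 * v⁻¹) atUH
        (𝓝 (-2 * (x₀ : ℂ) + (x₀ : ℂ) ^ 2 * 0)) :=
      (h0.const_mul ((x₀ : ℂ) ^ 2)).const_add _
    exact ((((k1.pow 3).mul hC.lim).add (k1.const_mul _)).add ((k2.const_mul _).mul k1)).const_mul _
  have e1 : ((α : ℂ) ^ 4 * ((1 - x₀ * 0) ^ 3 * a₃ + c * x₀ ^ 2 * (1 - x₀ * 0) +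
        a₂ * (-2 * x₀ + x₀ ^ 2 * 0) * (1 - x₀ * 0))) =
      ((α ^ 4 * (a₃ - 2 * x₀ * a₂ + x₀ ^ 2 * c) : ℝ) : ℂ) := by push_cast; ring
  rw [e1] at h1
  have hnex : ∀ᶠ w : ℂ in atUH, w ∈ UH := eventually_mem_UH
  apply (h1.comp hten).congr'
  filter_upwards [hten.eventually eventually_mem_UH, hnex] with w hw hwU
  have hw0 : w / α + x₀ ≠ 0 := jk_ne hw
  have hw1 : w ≠ 0 := jk_ne hwU
  simp only [Function.comp]
  set v := w / α + x₀ with hv
  have e3 : w = α * (v - x₀) := by rw [hv]; field_simp; ring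
  have hvx : v - x₀ ≠ 0 := by
    intro h2
    apply hw1
    rw [e3, h2, mul_zero]
  rw [e3]
  push_cast
  field_simp
  ring

/-- The coefficients are unique. -/
theorem Coef.unique {a₂ a₃ b₂ b₃ : ℝ} (h : Coef T c a₂ a₃) (h' : Coef T c b₂ b₃) :
    a₂ = b₂ ∧ a₃ = b₃ := by
  have : (atUH).NeBot := tendsto_iy.neBot
  have h1 : Tendsto (fun w : ℂ => w⁻¹ * (w ^ 3 * (w - T w - c / w - a₂ / w ^ 2) -
      w ^ 3 * (w - T w - c / w - b₂ / w ^ 2))) atUH (𝓝 (0 * ((a₃ : ℂ) - b₃))) :=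
    tendsto_inv_atUH.mul (h.lim.sub h'.lim)
  rw [zero_mul] at h1
  have h2 : Tendsto (fun w : ℂ => ((b₂ : ℂ) - a₂)) atUH (𝓝 0) := by
    apply h1.congr'
    filter_upwards [eventually_mem_UH] with w hw
    have := jk_ne hw
    field_simp
    ring
  have h3 : ((b₂ : ℂ) - a₂) = 0 := tendsto_nhds_unique tendsto_const_nhds h2
  have h4 : a₂ = b₂ := by
    have : ((b₂ : ℂ)) = a₂ := sub_eq_zero.1 h3
    exact_mod_cast this.symm
  subst h4
  refine ⟨rfl, ?_⟩
  exact_mod_cast tendsto_nhds_unique h.lim h'.lim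

end Hyd

end Pool.Agent.H83.Lo
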