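import Mathlib
import Pool.Agent.H83.M7.Affine
import Pool.Agent.H96.M7.Discrete

set_option autoImplicit false

/-! From conformal maps with poles at the same flat boundary point to a discrete Loewner chain. -/

namespace Pool.Agent.H83.Lo

open Complex Metric Set Filter Topology
open scoped ComplexConjugate

/-- Taylor coefficients of order one, two, three at `0` (value `0` at `0`). -/
structure Tay (A : ℂ → ℂ) (c d e : ℝ) : Prop where
  lim : Tendsto (fun u => (A u - c * u - d * u ^ 2) / u ^ 3) (𝓝[≠] 0) (𝓝 (e : ℂ))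

lemma ne_of_UH_zero : 𝓝[UH] (0 : ℂ) ≤ 𝓝[≠] 0 := by
  apply nhdsWithin_mono
  intro u hu
  exact jk_ne hu

/-- Symmetric functions have symmetric slopes. -/
lemma dslope_symm {r : ℝ} (hr : 0 < r) {f : ℂ → ℂ} (hf : DifferentiableOn ℂ f (ball 0 r))
    (hs : ∀ u ∈ ball (0 : ℂ) r, f (conj u) = conj (f u)) :
    DifferentiableOn ℂ (dslope f 0) (ball 0 r) ∧
      (∀ u ∈ ball (0 : ℂ) r, dslope f 0 (conj u) = conj (dslope f 0 u)) ∧
      (dslope f 0 0).im = 0 := by
  have hB0 : (0 : ℂ) ∈ ball (0 : ℂ) r := mem_ball_self hr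
  have hBn : ball (0 : ℂ) r ∈ 𝓝 (0 : ℂ) := isOpen_ball.mem_nhds hB0
  have hd : DifferentiableOn ℂ (dslope f 0) (ball 0 r) :=
    (Complex.differentiableOn_dslope hBn).2 hf
  have hf0 : conj (f 0) = f 0 := by
    have := hs 0 hB0
    rw [map_zero] at this
    exact this.symm
  have hne : ∀ u ∈ ball (0 : ℂ) r, u ≠ 0 → dslope f 0 (conj u) = conj (dslope f 0 u) := by
    intro u hu h0
    have h0' : conj u ≠ 0 := (map_ne_zero _).2 h0
    rw [dslope_of_ne _ h0, dslope_of_ne _ h0', slope_def_field, slope_def_field, hs u hu,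
      sub_zero, sub_zero, map_div₀, map_sub, hf0]
  have h0 : dslope f 0 (conj 0) = conj (dslope f 0 0) := by
    rw [map_zero]
    have hc : ContinuousAt (dslope f 0) 0 := hd.continuousOn.continuousAt hBn
    have l1 : Tendsto (fun ζ => dslope f 0 (conj ζ)) (𝓝[≠] 0) (𝓝 (dslope f 0 0)) := by
      have h2 : Tendsto (fun ζ : ℂ => conj ζ) (𝓝[≠] 0) (𝓝 0) := by
        have := (Complex.continuous_conj.tendsto (0 : ℂ))
        rw [map_zero] at this
        exact this.mono_left nhdsWithin_le_nhds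
      exact hc.tendsto.comp h2
    have l2 : Tendsto (fun ζ => conj (dslope f 0 ζ)) (𝓝[≠] 0) (𝓝 (conj (dslope f 0 0))) :=
      ((Complex.continuous_conj.tendsto _).comp hc.tendsto).mono_left nhdsWithin_le_nhds
    apply tendsto_nhds_unique (l1.congr' _) l2
    have h3 : ∀ᶠ ζ in 𝓝[≠] (0 : ℂ), ζ ∈ ball (0 : ℂ) r := mem_nhdsWithin_of_mem_nhds hBn
    have h4 : ∀ᶠ ζ in 𝓝[≠] (0 : ℂ), ζ ≠ 0 := self_mem_nhdsWithin
    filter_upwards [h3, h4] with ξ hξ hξ0
    exact hne ξ hξ hξ0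
  refine ⟨hd, fun u hu => ?_, ?_⟩
  · by_cases h : u = 0
    · rw [h]; exact h0
    · exact hne u hu h
  · rw [map_zero] at h0
    exact Complex.conj_eq_iff_im.1 h0.symm

lemma exists_tay {r : ℝ} (hr : 0 < r) {A : ℂ → ℂ} (hA : DifferentiableOn ℂ A (ball 0 r))
    (hs : ∀ u ∈ ball (0 : ℂ) r, A (conj u) = conj (A u)) (h0 : A 0 = 0) :
    ∃ d e : ℝ, Tay A (deriv A 0).re d e ∧
      (d : ℂ) = dslope (dslope A 0) 0 0 ∧ (e : ℂ) = dslope (dslope (dslope A 0) 0) 0 0 := by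
  obtain ⟨hd1, hs1, hr1⟩ := dslope_symm hr hA hs
  obtain ⟨hd2, hs2, hr2⟩ := dslope_symm hr hd1 hs1
  obtain ⟨hd3, hs3, hr3⟩ := dslope_symm hr hd2 hs2
  set A₁ := dslope A 0 with hA₁
  set A₂ := dslope A₁ 0 with hA₂
  set A₃ := dslope A₂ 0 with hA₃
  have e1 : (((deriv A 0).re : ℝ) : ℂ) = A₁ 0 := by
    rw [hA₁, dslope_same] at hr1
    rw [hA₁, dslope_same]
    exact Complex.ext (by simp) (by simp [hr1])
  have e2 : (((A₂ 0).re : ℝ) : ℂ) = A₂ 0 := Complex.ext (by simp) (by simp [hr2])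
  have e3 : (((A₃ 0).re : ℝ) : ℂ) = A₃ 0 := Complex.ext (by simp) (by simp [hr3])
  refine ⟨(A₂ 0).re, (A₃ 0).re, ⟨?_⟩, e2, e3⟩
  rw [e1, e2, e3]
  have hc3 : ContinuousAt A₃ 0 :=
    hd3.continuousOn.continuousAt (isOpen_ball.mem_nhds (mem_ball_self hr))
  have h1 : Tendsto A₃ (𝓝[≠] 0) (𝓝 (A₃ 0)) := hc3.tendsto.mono_left nhdsWithin_le_nhds
  apply h1.congr'
  filter_upwards [self_mem_nhdsWithin] with u hu
  have hu0 : u ≠ 0 := hu
  have f1 : A₁ u = A u / u := by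
    rw [hA₁, dslope_of_ne _ hu0, slope_def_field, h0, sub_zero, sub_zero]
  have f2 : A₂ u = (A₁ u - A₁ 0) / u := by
    rw [hA₂, dslope_of_ne _ hu0, slope_def_field, sub_zero]
  have f3 : A₃ u = (A₂ u - A₂ 0) / u := by
    rw [hA₃, dslope_of_ne _ hu0, slope_def_field, sub_zero]
  rw [f3, f2, f1]
  field_simp

lemma Tay.unique {A : ℂ → ℂ} {c d e c' d' e' : ℝ} (h : Tay A c d e) (h' : Tay A c' d' e') :
    c = c' ∧ d = d' ∧ e = e' := by
  have hu : Tendsto (fun u : ℂ => u) (𝓝[≠] 0) (𝓝 0) := tendsto_id.mono_left nhdsWithin_le_nhds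
  have h1 := (hu.pow 2).mul (h.lim.sub h'.lim)
  rw [zero_pow two_ne_zero, zero_mul] at h1
  have hd : Tendsto (fun u : ℂ => ((d : ℂ) - d') * u) (𝓝[≠] 0) (𝓝 0) := by
    have := hu.const_mul ((d : ℂ) - d')
    rwa [mul_zero] at this
  have h2 : Tendsto (fun u : ℂ => ((c' : ℂ) - c)) (𝓝[≠] 0) (𝓝 (0 + 0)) := by
    apply (h1.add hd).congr'
    filter_upwards [self_mem_nhdsWithin] with u hu0
    have hu0' : u ≠ 0 := hu0
    field_simp
    ring
  rw [add_zero] at h2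
  have h3 : ((c' : ℂ) - c) = 0 := tendsto_nhds_unique tendsto_const_nhds h2
  have hc : c = c' := by exact_mod_cast (sub_eq_zero.1 h3).symm
  subst hc
  have h4 := hu.mul (h.lim.sub h'.lim)
  rw [zero_mul] at h4
  have h5 : Tendsto (fun u : ℂ => ((d' : ℂ) - d)) (𝓝[≠] 0) (𝓝 0) := by
    apply h4.congr'
    filter_upwards [self_mem_nhdsWithin] with u hu0
    have hu0' : u ≠ 0 := hu0
    field_simp
    ring
  have h6 : ((d' : ℂ) - d) = 0 := tendsto_nhds_unique tendsto_const_nhds h5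
  have hd' : d = d' := by exact_mod_cast (sub_eq_zero.1 h6).symm
  subst hd'
  exact ⟨rfl, rfl, by exact_mod_cast tendsto_nhds_unique h.lim h'.lim⟩

namespace Psi

variable {G G' : Set ℂ} {ρ ρ' : ℝ} {ψ A ψ' A' T T' : ℂ → ℂ}

theorem exists_tay (h : Psi G ρ ψ A) : ∃ d e : ℝ, Tay A (deriv A 0).re d e := by
  obtain ⟨d, e, h1, -, -⟩ := Lo.exists_tay h.pos h.anal h.symm h.zero
  exact ⟨d, e, h1⟩

/-- The inverse of the quotient. -/
theorem quot_inv (h : Psi G ρ ψ A) (h' : Psi G' ρ' ψ' A') (hsub : G' ⊆ G)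
    (hT : PInv G ψ T) (hT' : PInv G' ψ' T') :
    Hyd.Inv (ψ '' G') (fun w => ψ' (T w)) (fun w => ψ (T' w))
      ((deriv A 0).re - (deriv A' 0).re) := by
  have hq := h.quot h' hsub hT
  obtain ⟨S, hS⟩ := hq.exists_inv
  apply Hyd.Inv.congr hq hS
  intro w hw
  have h1 : ψ (T' w) ∈ ψ '' G' := ⟨T' w, hT'.maps hw, rfl⟩
  have h2 := hS.left _ h1
  rw [hT.left _ (hsub (hT'.maps hw)), hT'.right w hw] at h2
  exact h2

/-- **The coefficients of the quotient.** -/
theorem quot_coef (h : Psi G ρ ψ A) (h' : Psi G' ρ' ψ' A')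
    (hT' : PInv G' ψ' T') {c d e c' d' e' : ℝ} (ht : Tay A c d e) (ht' : Tay A' c' d' e') :
    Hyd.Coef (fun w => ψ (T' w)) (c - c') (d' - d) (e - e' - c' * (c - c')) := by
  constructor
  have hlim := h'.inv_tendsto hT'
  -- everything as a function of `u = T' w`
  have hu : Tendsto (fun u : ℂ => u) (𝓝[UH] 0) (𝓝 0) := tendsto_id.mono_left nhdsWithin_le_nhds
  set R : ℂ → ℂ := fun u => (A u - c * u - d * u ^ 2) / u ^ 3 with hR
  set R' : ℂ → ℂ := fun u => (A' u - c' * u - d' * u ^ 2) / u ^ 3 with hR'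
  have hRl : Tendsto R (𝓝[UH] 0) (𝓝 (e : ℂ)) := ht.lim.mono_left ne_of_UH_zero
  have hRl' : Tendsto R' (𝓝[UH] 0) (𝓝 (e' : ℂ)) := ht'.lim.mono_left ne_of_UH_zero
  -- `q u = 1 - u A' u`, `(1 - q) / u^2 → c'`
  set p : ℂ → ℂ := fun u => c' + d' * u + R' u * u ^ 2 with hp
  have hpl : Tendsto p (𝓝[UH] 0) (𝓝 (c' + d' * 0 + e' * 0 ^ 2)) :=
    (((hu.const_mul (d' : ℂ)).const_add (c' : ℂ))).add (hRl'.mul (hu.pow 2))
  have hpl' : Tendsto p (𝓝[UH] 0) (𝓝 (c' : ℂ)) := by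
    have e1 : (c' : ℂ) + d' * 0 + e' * 0 ^ 2 = c' := by ring
    rwa [e1] at hpl
  set q : ℂ → ℂ := fun u => 1 - u ^ 2 * p u with hq
  have hql : Tendsto q (𝓝[UH] 0) (𝓝 1) := by
    have := (((hu.pow 2).mul hpl').const_sub (1 : ℂ))
    have e1 : (1 : ℂ) - 0 ^ 2 * c' = 1 := by ring
    rwa [e1] at this
  have hq0 : ∀ᶠ u in 𝓝[UH] (0 : ℂ), q u ≠ 0 := hql.eventually_ne one_ne_zero
  have key : Tendsto (fun u => -(q u) ^ 3 * (R' u - R u) -
      (c - c') * (q u) ^ 2 * p u + (d' - d) * (q u) * (u * (p u * (1 + q u)))) (𝓝[UH] 0)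
      (𝓝 (-(1 : ℂ) ^ 3 * (e' - e) - (c - c') * 1 ^ 2 * c' + (d' - d) * 1 *
        (0 * ((c' : ℂ) * (1 + 1))))) := by
    exact ((((hql.pow 3).neg).mul (hRl'.sub hRl)).sub (((hql.pow 2).const_mul _).mul hpl')).add
      ((hql.const_mul _).mul (hu.mul (hpl'.mul (hql.const_add 1))))
  have e1 : (-(1 : ℂ) ^ 3 * (e' - e) - (c - c') * 1 ^ 2 * c' + (d' - d) * 1 *
        (0 * ((c' : ℂ) * (1 + 1)))) = ((e - e' - c' * (c - c') : ℝ) : ℂ) := by
    push_cast
    ring
  rw [e1] at key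
  apply (key.comp hlim).congr'
  have h4 := hlim.eventually (((eventually_ball h.pos).and (eventually_ball h'.pos)).and hq0)
  filter_upwards [h4, eventually_mem_UH] with w hw hwU
  obtain ⟨⟨hw1, hw2⟩, hw3⟩ := hw
  simp only [Function.comp]
  set u := T' w with hudef
  have hu0 : u ≠ 0 := jk_ne hw1.2
  have hA : A u = c * u + d * u ^ 2 + R u * u ^ 3 := by
    simp only [hR]
    field_simp
    ring
  have hA' : A' u = u * p u := by
    simp only [hp, hR']
    field_simp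
    ring
  have hA'2 : A' u = c' * u + d' * u ^ 2 + R' u * u ^ 3 := by
    simp only [hR']
    field_simp
    ring
  have ew : w = -u⁻¹ + A' u := by
    rw [← h'.eq _ hw2.1 hw2.2, hT'.right w hwU]
  have ew2 : w = -(q u) / u := by
    rw [ew, hA']
    simp only [hq]
    field_simp
    ring
  have eT : ψ u = -u⁻¹ + A u := h.eq _ hw1.1 hw1.2
  have hdiff : w - ψ u = (c' - c) * u + (d' - d) * u ^ 2 + (R' u - R u) * u ^ 3 := by
    rw [ew, eT, hA, hA'2]
    ring
  have hq' : q u = 1 - u ^ 2 * p u := rfl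
  rw [hdiff, ew2]
  push_cast
  field_simp
  rw [hq']
  ring

end Psi

/-- The second moment around `W` of one step, in terms of the Taylor coefficients before and
after. -/
def mom (c d e c' d' e' W : ℝ) : ℝ :=
  (e - e' - c' * (c - c')) - 2 * W * (d' - d) + W ^ 2 * (c - c')

/-- **From conformal maps with poles at the same flat boundary point to a discrete chain.** -/
theorem mchain_of_psi {m : ℕ} {D G : ℕ → Set ℂ} {b e₀ : ℂ} (he₀ : e₀ ≠ 0)
    (hG : ∀ j ≤ m, ∀ u, u ∈ G j ↔ b + e₀ * u ∈ D j) {ρ : ℕ → ℝ} {ψ A : ℕ → ℂ → ℂ}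
    (h : ∀ j ≤ m, Psi (G j) (ρ j) (ψ j) (A j)) (hsub : ∀ j < m, D (j + 1) ⊆ D j)
    {c d e : ℕ → ℝ} (ht : ∀ j ≤ m, Tay (A j) (c j) (d j) (e j)) (W : ℕ → ℝ) {α : ℝ}
    (hα : 0 < α) (x₀ : ℝ) :
    Pool.Agent.H96.M7.MChain m (fun j => α ^ 2 * (c 0 - c j) / 2) (fun j => α * (W j - x₀))
      (fun j => α ^ 4 * mom (c j) (d j) (e j) (c (j + 1)) (d (j + 1)) (e (j + 1)) (W j)) D
      (fun j z => α * (ψ j ((z - b) / e₀) - x₀)) := by
  have hαc : (α : ℂ) ≠ 0 := by exact_mod_cast hα.ne'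
  have hGD : ∀ j ≤ m, ∀ z, z ∈ D j → (z - b) / e₀ ∈ G j := by
    intro j hj z hz
    rw [hG j hj, mul_div_cancel₀ _ he₀, add_sub_cancel]
    exact hz
  have hsubG : ∀ j < m, G (j + 1) ⊆ G j := by
    intro j hj u hu
    rw [hG j hj.le]
    exact hsub j hj ((hG (j + 1) hj u).1 hu)
  have hco : ∀ u : ℂ, (b + e₀ * u - b) / e₀ = u := by
    intro u
    rw [add_sub_cancel_left, mul_div_cancel_left₀ _ he₀]
  have hc : ∀ j ≤ m, c j = (deriv (A j) 0).re := by
    intro j hj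
    obtain ⟨d', e', h1⟩ := (h j hj).exists_tay
    exact ((ht j hj).unique h1).1
  refine ⟨?_, ?_, hsub, ?_⟩
  · intro j hj
    apply DifferentiableOn.const_mul
    apply DifferentiableOn.sub_const
    exact (h j hj).diff.comp (s := D j) (f := fun z => (z - b) / e₀) (by fun_prop)
      (fun z hz => hGD j hj z hz)
  · intro j hj
    refine ⟨?_, ?_, ?_⟩
    · intro z hz
      have h1 := (h j hj).bij.mapsTo (hGD j hj z hz)
      rw [mem_UH] at h1 ⊢
      simp only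
      rw [Complex.im_ofReal_mul, Complex.sub_im, Complex.ofReal_im, sub_zero]
      positivity
    · intro z hz z' hz' heq
      simp only at heq
      have h1 := (h j hj).bij.injOn (hGD j hj z hz) (hGD j hj z' hz')
        (sub_left_injective (mul_left_cancel₀ hαc heq))
      have h2 := (div_left_inj' he₀).1 h1
      exact sub_left_injective h2
    · intro w hw
      obtain ⟨u, hu, hu2⟩ := (h j hj).bij.surjOn ((affine_mem hα x₀ w).1 hw)
      refine ⟨b + e₀ * u, (hG j hj u).1 hu, ?_⟩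
      simp only
      rw [hco, hu2]
      field_simp
      ring
  · intro j hj
    have hj1 : j + 1 ≤ m := hj
    obtain ⟨T, hT⟩ := (h j hj.le).exists_inv
    obtain ⟨T', hT'⟩ := (h (j + 1) hj1).exists_inv
    have hq := (h j hj.le).quot (h (j + 1) hj1) (hsubG j hj) hT
    have hi := (h j hj.le).quot_inv (h (j + 1) hj1) (hsubG j hj) hT hT'
    have hcf := (h j hj.le).quot_coef (h (j + 1) hj1) hT' (ht j hj.le) (ht (j + 1) hj1)
    rw [← hc j hj.le, ← hc (j + 1) hj1] at hq hi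
    have hset : (fun w : ℂ => w / α + x₀) ⁻¹' (ψ j '' G (j + 1)) =
        (fun z => α * (ψ j ((z - b) / e₀) - x₀)) '' D (j + 1) := by
      ext w
      constructor
      · rintro ⟨u, hu, hu2⟩
        refine ⟨b + e₀ * u, (hG (j + 1) hj1 u).1 hu, ?_⟩
        simp only at hu2 ⊢
        rw [hco, hu2]
        field_simp
        ring
      · rintro ⟨z, hz, rfl⟩
        refine ⟨(z - b) / e₀, hGD (j + 1) hj1 z hz, ?_⟩
        simp only
        field_simp
        ring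
    have hcap : α ^ 2 * (c j - c (j + 1)) =
        2 * (α ^ 2 * (c 0 - c (j + 1)) / 2 - α ^ 2 * (c 0 - c j) / 2) := by ring
    refine ⟨fun w => α * (ψ (j + 1) (T (w / α + x₀)) - x₀),
      fun w => α * (ψ j (T' (w / α + x₀)) - x₀),
      α ^ 3 * ((d (j + 1) - d j) - x₀ * (c j - c (j + 1))),
      α ^ 4 * ((e j - e (j + 1) - c (j + 1) * (c j - c (j + 1))) -
        2 * x₀ * (d (j + 1) - d j) + x₀ ^ 2 * (c j - c (j + 1))), ?_, ?_, ?_, ?_, ?_⟩
    · have h1 := hq.affine hα x₀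
      rw [hset, hcap] at h1
      exact h1
    · have h1 := hi.affine hα x₀
      rw [hset, hcap] at h1
      exact h1
    · have h1 := hcf.affine hα x₀
      rw [hcap] at h1
      exact h1
    · intro z hz
      simp only
      have e1 : (α : ℂ) * (ψ j ((z - b) / e₀) - x₀) / α + x₀ = ψ j ((z - b) / e₀) := by
        field_simp
        ring
      rw [e1, hT.left _ (hsubG j hj (hGD (j + 1) hj1 z hz))]
    · apply le_of_eq
      unfold mom
      ring

end Pool.Agent.H83.Lo
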