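import Mathlib
import Pool.Agent.H83.Lo.PsiC

set_option autoImplicit false

/-! Boundary values and derivatives next to the pole. -/

namespace Pool.Agent.H83.Lo

open Complex Metric Set Filter Topology
open scoped ComplexConjugate Real
open Pool.Agent.Q1.M4

/-- the boundary value next to the pole -/
noncomputable def nv (A : ℂ → ℂ) (u : ℝ) : ℝ := -u⁻¹ + (A u).re

/-- the boundary derivative next to the pole -/
noncomputable def nd (A : ℂ → ℂ) (u : ℝ) : ℝ := (u ^ 2)⁻¹ + (deriv A u).re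

variable {G : Set ℂ} {ρ : ℝ} {ψ A : ℂ → ℂ}

lemma Psi.A_real (h : Psi G ρ ψ A) {u : ℝ} (hu : |u| < ρ) : (((A u).re : ℝ) : ℂ) = A u := by
  have h1 := h.symm u (mem_ball_real.2 hu)
  rw [Complex.conj_ofReal] at h1
  exact Complex.conj_eq_iff_re.1 h1.symm

lemma Psi.dA_real (h : Psi G ρ ψ A) {u : ℝ} (hu : |u| < ρ) :
    (((deriv A u).re : ℝ) : ℂ) = deriv A u := by
  have h1 := Psi.symm_deriv h.symm u (mem_ball_real.2 hu)
  rw [Complex.conj_ofReal] at h1
  exact Complex.conj_eq_iff_re.1 h1.symm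

/-- Near a real point next to the pole the domain is the upper half plane. -/
lemma Psi.nhds_real (h : Psi G ρ ψ A) {u : ℝ} (hu : |u| < ρ) : 𝓝[G] (u : ℂ) = 𝓝[UH] (u : ℂ) := by
  have hb : ball (0 : ℂ) ρ ∈ 𝓝 (u : ℂ) := isOpen_ball.mem_nhds (mem_ball_real.2 hu)
  apply nhdsWithin_eq_nhdsWithin (s := ball (0 : ℂ) ρ) (mem_ball_real.2 hu) isOpen_ball
  ext v
  constructor
  · rintro ⟨h1, h2⟩
    exact ⟨(h.box v h2).1 h1, h2⟩
  · rintro ⟨h1, h2⟩
    exact ⟨(h.box v h2).2 h1, h2⟩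

theorem Psi.near_val (h : Psi G ρ ψ A) {u : ℝ} (hu : |u| < ρ) (hu0 : u ≠ 0) :
    Tendsto ψ (𝓝[G] (u : ℂ)) (𝓝 (nv A u : ℂ)) := by
  rw [h.nhds_real hu]
  have hu0' : (u : ℂ) ≠ 0 := by exact_mod_cast hu0
  have hb : ball (0 : ℂ) ρ ∈ 𝓝 (u : ℂ) := isOpen_ball.mem_nhds (mem_ball_real.2 hu)
  have hA : ContinuousAt A u := h.anal.continuousOn.continuousAt hb
  have h1 : ContinuousAt (fun v : ℂ => -v⁻¹ + A v) u := (continuousAt_inv₀ hu0').neg.add hA
  have e1 : (nv A u : ℂ) = -(u : ℂ)⁻¹ + A u := by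
    unfold nv
    push_cast
    rw [h.A_real hu]
  rw [e1]
  apply (h1.tendsto.mono_left nhdsWithin_le_nhds).congr'
  filter_upwards [mem_nhdsWithin_of_mem_nhds hb, self_mem_nhdsWithin] with v hv hvU
  exact (h.eq v hv hvU).symm

theorem Psi.near_deriv (h : Psi G ρ ψ A) {u : ℝ} (hu : |u| < ρ) (hu0 : u ≠ 0) :
    Tendsto (fun v => (ψ v - nv A u) / (v - u)) (𝓝[G] (u : ℂ)) (𝓝 (nd A u : ℂ)) := by
  rw [h.nhds_real hu]
  have hu0' : (u : ℂ) ≠ 0 := by exact_mod_cast hu0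
  have hb : ball (0 : ℂ) ρ ∈ 𝓝 (u : ℂ) := isOpen_ball.mem_nhds (mem_ball_real.2 hu)
  have hA : HasDerivAt A (deriv A u) u := (h.anal.differentiableAt hb).hasDerivAt
  have h1 : HasDerivAt (fun v : ℂ => -v⁻¹ + A v) (((u : ℂ) ^ 2)⁻¹ + deriv A u) u := by
    have h2 := (hasDerivAt_inv hu0').neg.add hA
    rw [neg_neg] at h2
    exact h2
  have h3 := hasDerivAt_iff_tendsto_slope.1 h1
  have e0 : (nv A u : ℂ) = -(u : ℂ)⁻¹ + A u := by
    unfold nv
    push_cast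
    rw [h.A_real hu]
  have e1 : (nd A u : ℂ) = ((u : ℂ) ^ 2)⁻¹ + deriv A u := by
    unfold nd
    push_cast
    rw [h.dA_real hu]
  rw [e1, e0]
  have h4 : 𝓝[UH] (u : ℂ) ≤ 𝓝[≠] (u : ℂ) := by
    apply nhdsWithin_mono
    rintro v hv rfl
    simp [mem_UH] at hv
  apply (h3.mono_left h4).congr'
  filter_upwards [mem_nhdsWithin_of_mem_nhds hb, self_mem_nhdsWithin] with v hv hvU
  rw [slope_def_field, h.eq v hv hvU]

variable {P : PType} {x y : ℤ → ℝ}

/-- The same in the plane of the polygon. -/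
theorem psi_near (h : Psi (nG P x y) ρ ψ A) {u : ℝ} (hu : |u| < ρ) (hu0 : u ≠ 0) :
    Tendsto (fun z => ψ (nco P x y z)) (𝓝[Om P.Q x y] (bpt P x y + bdir P * u))
      (𝓝 (nv A u : ℂ)) ∧
    Tendsto (fun z => (ψ (nco P x y z) - nv A u) / (z - (bpt P x y + bdir P * u)))
      (𝓝[Om P.Q x y] (bpt P x y + bdir P * u)) (𝓝 (nd A u / bdir P : ℂ)) := by
  have h1 := nco_tendsto (P := P) (x := x) (y := y) (bpt P x y + bdir P * u)
  rw [nco_inv'] at h1
  refine ⟨(h.near_val hu hu0).comp h1, ?_⟩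
  have h2 := ((h.near_deriv hu hu0).comp h1).div_const (bdir P)
  apply h2.congr
  intro z
  have hb := bdir_ne (P := P)
  simp only [Function.comp]
  have e1 : nco P x y z - u = (z - (bpt P x y + bdir P * u)) / bdir P := by
    unfold nco
    field_simp
    ring
  rw [e1, div_div_eq_mul_div, div_div, mul_comm (z - _) (bdir P), mul_comm _ (bdir P),
    mul_div_mul_left _ _ hb]

end Pool.Agent.H83.Lo
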