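import Mathlib
import Pool.Agent.H83.M7.PsiD

set_option autoImplicit false

/-! The position of the mark `a` is bounded when the mark is outside the box of the pole. -/

namespace Pool.Agent.H83.Lo

open Complex Metric Set Filter Topology
open scoped ComplexConjugate Real
open Pool.Agent.Q1.M4

variable {P : PType} {x y : ℤ → ℝ} {ρ : ℝ} {ψ A : ℂ → ℂ} {L : ℝ → ℝ}

/-- The boundary points of the box are points of the boundary walk, with the right value. -/
lemma near_param (hx : StrictMono x) (hy : StrictMono y) (h : Psi (nG P x y) ρ ψ A)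
    (hL : BData P x y ψ L) {u : ℝ} (hu : |u| < ρ) (hu0 : u ≠ 0) :
    ∃ n < P.N, ∃ t ∈ Icc (0 : ℝ) 1, (n = 0 → 0 < t) ∧ (n + 1 = P.N → t < 1) ∧
      P.sidePt x y n t = bpt P x y + bdir P * u ∧ L (n + t) = nv A u := by
  have hpos := h.pos
  have hnot : (u : ℂ) ∉ nG P x y := by
    intro h1
    have := (h.box u (mem_ball_real.2 hu)).1 h1
    simp [mem_UH] at this
  have hne : (𝓝[nG P x y] (u : ℂ)).NeBot := by
    rw [h.nhds_real hu]
    exact neBot_real (Complex.ofReal_im u)
  have hcl : bpt P x y + bdir P * u ∈ closure (Om P.Q x y) := by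
    have h1 : (u : ℂ) ∈ closure (nG P x y) := mem_closure_iff_nhdsWithin_neBot.2 hne
    have hc : Continuous (fun v : ℂ => bpt P x y + bdir P * v) := by fun_prop
    have h2 := image_closure_subset_closure_image hc ⟨_, h1, rfl⟩
    apply closure_mono _ h2
    rintro _ ⟨v, hv, rfl⟩
    exact hv
  have hfr : bpt P x y + bdir P * u ∈ frontier (Om P.Q x y) := by
    rw [(isOpen_Om _ _ _).frontier_eq]
    exact ⟨hcl, hnot⟩
  obtain ⟨n, hn, t, ht, hz⟩ := P.frontier_cover hx hy hfr
  have hzb : P.sidePt x y n t ≠ bpt P x y := by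
    rw [← hz]
    intro h1
    have h2 : bdir P * (u : ℂ) = 0 := by linear_combination h1
    rcases mul_eq_zero.1 h2 with h3 | h3
    · exact bdir_ne h3
    · exact hu0 (by exact_mod_cast h3)
  have c0 : n = 0 → 0 < t := by
    rintro rfl
    apply lt_of_le_of_ne ht.1
    rintro rfl
    apply hzb
    rw [P.sidePt_zero]
    rfl
  have c1 : n + 1 = P.N → t < 1 := by
    intro h1
    apply lt_of_le_of_ne ht.2
    rintro rfl
    apply hzb
    rw [P.sidePt_one, h1, P.vert_N]
    rfl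
  refine ⟨n, hn, t, ht, c0, c1, hz.symm, ?_⟩
  have h1 := (psi_near h hu hu0).1
  rw [hz] at h1
  exact (hL.eq_of_tendsto hx hy hn ht c0 c1 h1).symm

lemma near_ne_mark (hx : StrictMono x) (hy : StrictMono y) (h : Psi (nG P x y) ρ ψ A)
    (hL : BData P x y ψ L) (htip : ρ ≤ ‖nco P x y (pt x y (P.vert P.m))‖) {u : ℝ} (hu : |u| < ρ)
    (hu0 : u ≠ 0) : nv A u ≠ L P.m := by
  intro heq
  obtain ⟨n, hn, t, ht, c0, c1, hz, hLn⟩ := near_param hx hy h hL hu hu0
  have hm0 : (0 : ℝ) < P.m := Nat.cast_pos.2 P.hm0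
  have hmN : (P.m : ℝ) < P.N := Nat.cast_lt.2 P.hmN
  have h1 : (n : ℝ) + t = P.m :=
    hL.mono.injOn (mem_Ioo_N hn ht c0 c1) ⟨hm0, hmN⟩ (hLn.trans heq)
  have h2 : P.sidePt x y n t = pt x y (P.vert P.m) := by
    rcases lt_or_ge n P.m with h3 | h3
    · have h4 : (n : ℝ) + 1 ≤ P.m := by exact_mod_cast h3
      have h5 : t = 1 := le_antisymm ht.2 (by linarith)
      have h6 : n + 1 = P.m := by
        have : ((n + 1 : ℕ) : ℝ) = P.m := by push_cast; linarith
        exact_mod_cast this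
      rw [h5, P.sidePt_one, h6]
    · have h4 : (P.m : ℝ) ≤ n := by exact_mod_cast h3
      have h5 : t = 0 := le_antisymm (by linarith) ht.1
      have h6 : n = P.m := by
        have : (n : ℝ) = P.m := by linarith
        exact_mod_cast this
      rw [h5, P.sidePt_zero, h6]
  rw [← h2, hz, nco_inv', Complex.norm_real, Real.norm_eq_abs] at htip
  linarith

lemma nv_continuousOn (h : Psi (nG P x y) ρ ψ A) {s : Set ℝ} (hs : ∀ u ∈ s, |u| < ρ ∧ u ≠ 0) :
    ContinuousOn (nv A) s := by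
  intro u hu
  obtain ⟨h1, h2⟩ := hs u hu
  apply ContinuousAt.continuousWithinAt
  unfold nv
  have hA : ContinuousAt A (u : ℂ) :=
    h.anal.continuousOn.continuousAt (isOpen_ball.mem_nhds (mem_ball_real.2 h1))
  have h3 : ContinuousAt (fun v : ℝ => (A v).re) u :=
    Complex.continuous_re.continuousAt.comp
      (ContinuousAt.comp (g := A) (f := fun v : ℝ => (v : ℂ)) hA
        Complex.continuous_ofReal.continuousAt)
  exact (continuousAt_inv₀ h2).neg.add h3

lemma nv_re_le (h : Psi (nG P x y) ρ ψ A) {u : ℝ} (hu : |u| < ρ) : |(A u).re| ≤ 10 / ρ :=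
  (Complex.abs_re_le_norm _).trans (h.bound u (mem_ball_real.2 hu))

/-- On the free side of the pole the values are smaller than `W`. -/
theorem near_lt (hx : StrictMono x) (hy : StrictMono y) (h : Psi (nG P x y) ρ ψ A)
    (hL : BData P x y ψ L) (htip : ρ ≤ ‖nco P x y (pt x y (P.vert P.m))‖) {u : ℝ} (hu0 : 0 < u)
    (hu : u < ρ) : nv A u < L P.m := by
  have hpos := h.pos
  by_contra hcon
  push Not at hcon
  set v : ℝ := min u (10 / ρ + |L P.m| + 1)⁻¹ with hv
  have hK : 0 < 10 / ρ + |L P.m| + 1 := by positivity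
  have hv0 : 0 < v := lt_min hu0 (by positivity)
  have hvu : v ≤ u := min_le_left _ _
  have hvi : 10 / ρ + |L P.m| + 1 ≤ v⁻¹ := by
    rw [le_inv_comm₀ hK hv0]
    exact min_le_right _ _
  have hvlt : nv A v < L P.m := by
    unfold nv
    have h1 := nv_re_le h (u := v) (by rw [abs_of_pos hv0]; linarith)
    have h2 := (abs_le.1 h1).2
    have h3 := neg_abs_le (L P.m)
    linarith
  have hcont : ContinuousOn (nv A) (Icc v u) := by
    apply nv_continuousOn h
    intro w hw
    refine ⟨?_, (hv0.trans_le hw.1).ne'⟩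
    rw [abs_of_pos (hv0.trans_le hw.1)]
    linarith [hw.2]
  obtain ⟨w, hw, hw2⟩ := intermediate_value_Icc hvu hcont ⟨hvlt.le, hcon⟩
  have hw0 : 0 < w := hv0.trans_le hw.1
  exact near_ne_mark hx hy h hL htip (u := w) (by rw [abs_of_pos hw0]; linarith [hw.2]) hw0.ne' hw2

/-- On the wired side of the pole the values are greater than `W`. -/
theorem near_gt (hx : StrictMono x) (hy : StrictMono y) (h : Psi (nG P x y) ρ ψ A)
    (hL : BData P x y ψ L) (htip : ρ ≤ ‖nco P x y (pt x y (P.vert P.m))‖) {u : ℝ} (hu0 : u < 0)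
    (hu : -ρ < u) : L P.m < nv A u := by
  have hpos := h.pos
  by_contra hcon
  push Not at hcon
  set v : ℝ := max u (-(10 / ρ + |L P.m| + 1)⁻¹) with hv
  have hK : 0 < 10 / ρ + |L P.m| + 1 := by positivity
  have hv0 : v < 0 := max_lt hu0 (neg_neg_of_pos (by positivity))
  have hvu : u ≤ v := le_max_left _ _
  have hvi : 10 / ρ + |L P.m| + 1 ≤ (-v)⁻¹ := by
    rw [le_inv_comm₀ hK (neg_pos.2 hv0)]
    have : -(10 / ρ + |L P.m| + 1)⁻¹ ≤ v := le_max_right _ _
    linarith
  have hvlt : L P.m < nv A v := by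
    unfold nv
    have h1 := nv_re_le h (u := v) (by rw [abs_of_neg hv0]; linarith)
    have h2 := (abs_le.1 h1).1
    have h3 := le_abs_self (L P.m)
    rw [inv_neg] at hvi
    linarith
  have hcont : ContinuousOn (nv A) (Icc u v) := by
    apply nv_continuousOn h
    intro w hw
    have hw0 : w < 0 := hw.2.trans_lt hv0
    refine ⟨?_, hw0.ne⟩
    rw [abs_of_neg hw0]
    linarith [hw.1]
  obtain ⟨w, hw, hw2⟩ := intermediate_value_Icc hvu hcont ⟨hcon, hvlt.le⟩
  have hw0 : w < 0 := hw.2.trans_lt hv0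
  exact near_ne_mark hx hy h hL htip (u := w) (by rw [abs_of_neg hw0]; linarith [hw.1]) hw0.ne hw2

/-- **Bound of the position of the mark.** -/
theorem mark_bound (hx : StrictMono x) (hy : StrictMono y) (h : Psi (nG P x y) ρ ψ A)
    (hL : BData P x y ψ L) (htip : ρ ≤ ‖nco P x y (pt x y (P.vert P.m))‖) :
    |L P.m| ≤ 11 / ρ := by
  have hpos := h.pos
  rw [abs_le]
  constructor
  · have key : ∀ u ∈ Ioo (0 : ℝ) ρ, -u⁻¹ - 10 / ρ ≤ L P.m := by
      intro u hu
      have h1 := near_lt hx hy h hL htip hu.1 hu.2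
      have h2 := (abs_le.1 (nv_re_le h (u := u) (by rw [abs_of_pos hu.1]; exact hu.2))).1
      unfold nv at h1
      linarith
    have hlim : Tendsto (fun u : ℝ => -u⁻¹ - 10 / ρ) (𝓝[<] ρ) (𝓝 (-ρ⁻¹ - 10 / ρ)) :=
      (((continuousAt_inv₀ hpos.ne').neg.sub continuousAt_const).tendsto).mono_left
        nhdsWithin_le_nhds
    have hev : ∀ᶠ u in 𝓝[<] ρ, -u⁻¹ - 10 / ρ ≤ L P.m := by
      filter_upwards [Ioo_mem_nhdsLT hpos] with u hu
      exact key u hu
    have h3 := le_of_tendsto hlim hev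
    have e1 : -ρ⁻¹ - 10 / ρ = -(11 / ρ) := by field_simp; ring
    linarith
  · have key : ∀ u ∈ Ioo (0 : ℝ) ρ, L P.m ≤ u⁻¹ + 10 / ρ := by
      intro u hu
      have h1 := near_gt hx hy h hL htip (u := -u) (by linarith [hu.1]) (by linarith [hu.2])
      have h2 := (abs_le.1 (nv_re_le h (u := -u) (by
        rw [abs_neg, abs_of_pos hu.1]; exact hu.2))).2
      unfold nv at h1
      rw [inv_neg, neg_neg] at h1
      linarith
    have hlim : Tendsto (fun u : ℝ => u⁻¹ + 10 / ρ) (𝓝[<] ρ) (𝓝 (ρ⁻¹ + 10 / ρ)) :=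
      (((continuousAt_inv₀ hpos.ne').add continuousAt_const).tendsto).mono_left
        nhdsWithin_le_nhds
    have hev : ∀ᶠ u in 𝓝[<] ρ, L P.m ≤ u⁻¹ + 10 / ρ := by
      filter_upwards [Ioo_mem_nhdsLT hpos] with u hu
      exact key u hu
    have h3 := ge_of_tendsto hlim hev
    have e1 : ρ⁻¹ + 10 / ρ = 11 / ρ := by field_simp; ring
    linarith

end Pool.Agent.H83.Lo
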