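import Mathlib
import Pool.Agent.H82.Q1.M7.Iface
import Pool.Agent.H83.M7.WBound
import Pool.Agent.H83.M7.Bridge
import Pool.Agent.H66.M7.StepC

set_option autoImplicit false

/-! The conformal maps of the polygons of the interface `H82/Q1/M7/Iface`: choice, chart, position
of the tip, values in the window. -/

namespace Pool.Agent.H83.M7

open Complex Metric Set Filter Topology
open Pool.Agent.H83.Lo
open Pool.Agent.H81.Q1 (Approx)
open Pool.Agent.Q1.M3
open Pool.Agent.Q1.M3.Pg (SD LX gx lo gx_mono)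
open Pool.Agent.H82.Q1.M7
open Pool.Agent.Q1.M4 (Om PType udir nextSide)

variable {D : Set ℂ} {a b : ℂ} {A₁ A₂ : Set ℂ} {A : Approx D a b A₁ A₂} {r0 : ℝ}
  (B : Base A r0) (w : Win B) (d : SD)

/-- There is a conformal map of the polygon with pole at `b''`. -/
def HasPsi : Prop := ∃ ψ R : ℂ → ℂ, Psi (nGX B w d) w.l ψ R

open Classical in
/-- The conformal map in the normalised coordinate. -/
noncomputable def psiX : ℂ → ℂ := if h : HasPsi B w d then h.choose else 0

open Classical in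
/-- The regular part. -/
noncomputable def AX : ℂ → ℂ := if h : HasPsi B w d then h.choose_spec.choose else 0

/-- The conformal map in the plane. -/
noncomputable def zX (z : ℂ) : ℂ := psiX B w d ((z - w.p) / uv w.k)

/-- The tip. -/
noncomputable def tipX : ℂ := gpt B.o d.K (Pool.Agent.Q1.M4.tail d.s)

/-- The image of the tip. -/
noncomputable def WX : ℝ := (limUnder (𝓝[GX B d] tipX B d) (zX B w d)).re

variable {B w d}

lemma psiX_spec (h : HasPsi B w d) : Psi (nGX B w d) w.l (psiX B w d) (AX B w d) := by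
  unfold psiX AX
  rw [dif_pos h, dif_pos h]
  exact h.choose_spec.choose_spec

/-! ### The polygon as a type -/

lemma uv_eq (k : ℤ) : uv k = udir k := rfl

lemma uv_congr {k k' : ℤ} (h : k % 4 = k' % 4) : uv k = uv k' := by
  unfold uv
  rw [Pool.Agent.Q1.M4.dir_congr (show (k - k') % 4 = 0 by omega)]

lemma uv_ne (k : ℤ) : uv k ≠ 0 := Pool.Agent.Q1.M4.udir_ne k

lemma norm_uv (k : ℤ) : ‖uv k‖ = 1 := Pool.Agent.Q1.M4.norm_udir k

lemma mesh_mul {k K : ℕ} (h : k ≤ K) : mesh (K + 1) * 3 ^ (K - k) = mesh (k + 1) := by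
  obtain ⟨j, rfl⟩ := Nat.exists_eq_add_of_le h
  unfold mesh
  rw [Nat.add_sub_cancel_left, show k + j + 1 = (k + 1) + j by ring, pow_add (1 / 3 : ℝ), mul_assoc,
    ← mul_pow]
  norm_num

lemma pt_gx (o : ℂ) (K : ℕ) (m : ℤ × ℤ) :
    Pool.Agent.Q1.M4.pt (gx K o.re) (gx K o.im) m = gpt o K m := rfl

lemma gpt_gv {K : ℕ} (hK : w.k1 ≤ K) (i : ℤ) : gpt B.o K (w.gv K i) = w.u i := by
  unfold Win.u gpt Win.gv
  have h := mesh_mul hK
  apply Complex.ext
  · simp only [Prod.smul_fst, smul_eq_mul]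
    rw [← h]
    push_cast
    ring
  · simp only [Prod.smul_snd, smul_eq_mul]
    rw [← h]
    push_cast
    ring

lemma u_eq (i : ℤ) : w.u i = w.p + uv w.k * ((i * mesh (w.k1 + 1) : ℝ) : ℂ) := by
  unfold Win.u Win.p gpt uv
  apply Complex.ext
  · simp only [Prod.fst_add, Prod.smul_fst, smul_eq_mul, Complex.add_re, Complex.mul_re,
      Complex.ofReal_re, Complex.ofReal_im, mul_zero, sub_zero]
    push_cast
    ring
  · simp only [Prod.snd_add, Prod.smul_snd, smul_eq_mul, Complex.add_im, Complex.mul_im,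
      Complex.ofReal_re, Complex.ofReal_im, mul_zero, zero_add]
    push_cast
    ring

lemma u_zero : w.u 0 = w.p := by
  rw [u_eq]
  simp

variable {nb : ℕ} (hb : IsB B w d nb) (hK : w.k1 ≤ d.K)

include hb in
lemma T_Q : hb.T.Q = d.R := rfl

include hb hK in
lemma T_bpt : bpt hb.T (gx d.K B.o.re) (gx d.K B.o.im) = w.p := by
  have h1 : hb.T.vert 0 = w.gv d.K 0 := hb.tail
  unfold bpt
  rw [h1, pt_gx, gpt_gv hK, u_zero]

include hb in
lemma T_bdir : bdir hb.T = uv w.k := by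
  have h1 : (hb.T.side 0).2 % 4 = w.k % 4 := hb.dir
  unfold bdir
  rw [← uv_eq]
  exact uv_congr h1

include hb hK in
lemma T_nG : nG hb.T (gx d.K B.o.re) (gx d.K B.o.im) = nGX B w d := by
  ext u
  rw [mem_nG, T_bpt hb hK, T_bdir hb]
  exact Iff.rfl

include hb hK in
lemma T_nco (z : ℂ) : nco hb.T (gx d.K B.o.re) (gx d.K B.o.im) z = (z - w.p) / uv w.k := by
  unfold nco
  rw [T_bpt hb hK, T_bdir hb]

include hb in
lemma T_tip : hb.T.vert hb.T.m = Pool.Agent.Q1.M4.tail d.s := by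
  have hm : hb.T.m = d.N - nb := rfl
  have hN : nb ≤ d.N := hb.hi.le.trans hb.n2
  have h1 : hb.T.side hb.T.m = (nextSide d.R)^[d.N] d.s := by
    have h2 : hb.T.side hb.T.m = (nextSide d.R)^[d.N - nb] ((nextSide d.R)^[nb] d.s) := rfl
    rw [h2, ← Function.iterate_add_apply, Nat.sub_add_cancel hN]
  unfold PType.vert
  rw [h1, hb.ok.mark.walk.period]
  apply Pool.Agent.Q1.M4.Eqv.tail
  exact ⟨rfl, by simp only; omega⟩

/-- The box condition. -/
def BoxX (B : Base A r0) (w : Win B) (d : SD) : Prop :=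
  ∀ u : ℂ, ‖u‖ < w.l → (u ∈ nGX B w d ↔ 0 < u.im)

include hb hK in
theorem hasPsi (hbox : BoxX B w d) : HasPsi B w d := by
  have h1 := exists_psi_nG (P := hb.T) (x := gx d.K B.o.re) (y := gx d.K B.o.im)
    (gx_mono _ _) (gx_mono _ _) w.l0 (by
      intro u hu
      rw [T_nG hb hK]
      exact hbox u (mem_ball_zero_iff.1 hu))
  rw [T_nG hb hK] at h1
  exact h1

include hb hK in
/-- Everything about the conformal map of the polygon. -/
theorem psi_T (h : HasPsi B w d) :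
    Psi (nG hb.T (gx d.K B.o.re) (gx d.K B.o.im)) w.l (psiX B w d) (AX B w d) := by
  rw [T_nG hb hK]
  exact psiX_spec h

include hb hK in
lemma zX_eq : (fun z => psiX B w d (nco hb.T (gx d.K B.o.re) (gx d.K B.o.im) z)) = zX B w d := by
  funext z
  rw [T_nco hb hK]
  rfl

include hb hK in
/-- The position of the mark is `WX`. -/
theorem WX_eq (_h : HasPsi B w d) {L : ℝ → ℝ}
    (hL : BData hb.T (gx d.K B.o.re) (gx d.K B.o.im) (psiX B w d) L) :
    Tendsto (zX B w d) (𝓝[GX B d] tipX B d) (𝓝 (WX B w d : ℂ)) ∧ WX B w d = L hb.T.m := by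
  have h1 := hL.mark
  rw [zX_eq hb hK, T_tip hb, pt_gx] at h1
  have h2 : Tendsto (zX B w d) (𝓝[GX B d] tipX B d) (𝓝 (L hb.T.m : ℂ)) := h1
  have hne : (𝓝[GX B d] tipX B d).NeBot := by
    rw [← mem_closure_iff_nhdsWithin_neBot]
    have h3 := frontier_subset_closure (hb.T.sidePt_mem_frontier (x := gx d.K B.o.re)
      (y := gx d.K B.o.im) (gx_mono _ _) (gx_mono _ _) hb.T.m (t := 0) (by simp))
    rw [hb.T.sidePt_zero, T_tip hb, pt_gx] at h3
    exact h3
  have h4 : WX B w d = L hb.T.m := by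
    unfold WX
    rw [h2.limUnder_eq, Complex.ofReal_re]
  rw [h4]
  exact ⟨h2, rfl⟩

include hb hK in
theorem tip_val (h : HasPsi B w d) :
    Tendsto (zX B w d) (𝓝[GX B d] tipX B d) (𝓝 (WX B w d : ℂ)) := by
  obtain ⟨L, hL⟩ := exists_bdata (gx_mono _ _) (gx_mono _ _) (psi_T hb hK h)
  exact (WX_eq hb hK h hL).1

include hK in
/-- **The chart of the polygon.** -/
theorem chartX (h : HasPsi B w d) :
    Pool.Agent.H29.M7.Chart hb.T (gx d.K B.o.re) (gx d.K B.o.im) (zX B w d) (WX B w d) := by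
  obtain ⟨L, hL⟩ := exists_bdata (gx_mono _ _) (gx_mono _ _) (psi_T hb hK h)
  have h1 := psi_chart (psi_T hb hK h) hL
  rw [zX_eq hb hK, ← (WX_eq hb hK h hL).2] at h1
  exact h1

/-- The tip is not in the box. -/
def TipFar (B : Base A r0) (w : Win B) (d : SD) : Prop := w.l ≤ dist (tipX B d) w.p

include hb hK in
lemma tipFar_nco (ht : TipFar B w d) : w.l ≤ ‖nco hb.T (gx d.K B.o.re) (gx d.K B.o.im)
    (Pool.Agent.Q1.M4.pt (gx d.K B.o.re) (gx d.K B.o.im) (hb.T.vert hb.T.m))‖ := by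
  rw [T_nco hb hK, T_tip hb, pt_gx, norm_div, norm_uv, div_one, ← dist_eq_norm]
  exact ht

include hb hK in
/-- **Bound of the position of the tip.** -/
theorem WX_bound (h : HasPsi B w d) (ht : TipFar B w d) : |WX B w d| ≤ 11 / w.l := by
  obtain ⟨L, hL⟩ := exists_bdata (gx_mono _ _) (gx_mono _ _) (psi_T hb hK h)
  rw [(WX_eq hb hK h hL).2]
  exact mark_bound (gx_mono _ _) (gx_mono _ _) (psi_T hb hK h) hL (tipFar_nco hb hK ht)

include hb hK in
theorem WX_gt (h : HasPsi B w d) (ht : TipFar B w d) {u : ℝ} (hu0 : 0 < u) (hu : u < w.l) :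
    nv (AX B w d) u < WX B w d := by
  obtain ⟨L, hL⟩ := exists_bdata (gx_mono _ _) (gx_mono _ _) (psi_T hb hK h)
  rw [(WX_eq hb hK h hL).2]
  exact near_lt (gx_mono _ _) (gx_mono _ _) (psi_T hb hK h) hL (tipFar_nco hb hK ht) hu0 hu

include hb hK in
theorem WX_lt (h : HasPsi B w d) (ht : TipFar B w d) {u : ℝ} (hu0 : u < 0) (hu : -w.l < u) :
    WX B w d < nv (AX B w d) u := by
  obtain ⟨L, hL⟩ := exists_bdata (gx_mono _ _) (gx_mono _ _) (psi_T hb hK h)
  rw [(WX_eq hb hK h hL).2]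
  exact near_gt (gx_mono _ _) (gx_mono _ _) (psi_T hb hK h) hL (tipFar_nco hb hK ht) hu0 hu

include hb hK in
/-- Values and derivatives in the window. -/
theorem near_X (h : HasPsi B w d) {i : ℤ} (hi : |i * mesh (w.k1 + 1)| < w.l) (hi0 : i ≠ 0) :
    Tendsto (zX B w d) (𝓝[GX B d] w.u i) (𝓝 (nv (AX B w d) (i * mesh (w.k1 + 1)) : ℂ)) ∧
    Tendsto (fun z => (zX B w d z - nv (AX B w d) (i * mesh (w.k1 + 1))) / (z - w.u i))
      (𝓝[GX B d] w.u i) (𝓝 (nd (AX B w d) (i * mesh (w.k1 + 1)) / uv w.k : ℂ)) := by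
  have hu0 : (i * mesh (w.k1 + 1) : ℝ) ≠ 0 :=
    mul_ne_zero (by exact_mod_cast hi0) (mesh_pos _).ne'
  have h1 := psi_near (psi_T hb hK h) hi hu0
  have e2 : bpt hb.T (gx d.K B.o.re) (gx d.K B.o.im) +
      bdir hb.T * ((i * mesh (w.k1 + 1) : ℝ) : ℂ) = w.u i := by
    rw [T_bpt hb hK, T_bdir hb, u_eq]
  rw [e2] at h1
  obtain ⟨h3, h4⟩ := h1
  constructor
  · have h5 := zX_eq hb hK
    rw [h5] at h3
    exact h3
  · have h5 : (fun z => (psiX B w d (nco hb.T (gx d.K B.o.re) (gx d.K B.o.im) z) -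
        nv (AX B w d) (i * mesh (w.k1 + 1))) / (z - w.u i)) =
        fun z => (zX B w d z - nv (AX B w d) (i * mesh (w.k1 + 1))) / (z - w.u i) := by
      funext z
      rw [T_nco hb hK]
      rfl
    rw [h5, T_bdir hb] at h4
    exact h4

end Pool.Agent.H83.M7
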