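import Mathlib
import Pool.Agent.H83.M7.Inst

set_option autoImplicit false

/-! The conformal maps of the polygons of the interface `H82/Q1/M7/Iface`: the observable, one step,
the discrete Loewner chain. -/

namespace Pool.Agent.H83.M7

open Complex Metric Set Filter Topology
open Pool.Agent.H83.Lo
open Pool.Agent.H81.Q1 (Approx)
open Pool.Agent.Q1.M3
open Pool.Agent.Q1.M3.Pg (SD LX gx lo gx_mono)
open Pool.Agent.H82.Q1.M7
open Pool.Agent.Q1.M4 (Om PType udir nextSide)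
open Pool.Agent.H66.M7 (Germ rc tc psr psd kap)

/-! ### Germs -/

section germ

variable {G : Set ℂ} {ρ : ℝ} {ψ R : ℂ → ℂ}

theorem psi_germ (h : Psi G ρ ψ R) : Germ ρ (10 / ρ) R :=
  ⟨h.anal, h.zero, h.symm, h.bound⟩

theorem psi_tay (h : Psi G ρ ψ R) : Tay R (rc R 1) (rc R 2) (rc R 3) := by
  have hB : ball (0 : ℂ) ρ ∈ 𝓝 (0 : ℂ) := isOpen_ball.mem_nhds (mem_ball_self h.pos)
  have han : AnalyticAt ℂ R 0 := h.anal.analyticAt hB
  have h5 := Pool.Agent.H66.M7.E5_of_analytic han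
  have hreal : ∀ m, ((rc R m : ℝ) : ℂ) = tc R m := by
    intro m
    exact (Pool.Agent.H66.M7.tc_real h.pos h.symm m).symm
  have h0 : tc R 0 = 0 := by rw [Pool.Agent.H66.M7.tc_zero, h.zero]
  constructor
  unfold Pool.Agent.H66.M7.E5 at h5
  rw [hreal, hreal, hreal]
  have h6 : (fun u : ℂ => (R u - tc R 1 * u - tc R 2 * u ^ 2) / u ^ 3 - tc R 3) =O[𝓝[≠] 0]
      fun u => u := by
    have h7 := (h5.mono nhdsWithin_le_nhds : _ =O[𝓝[≠] (0 : ℂ)] _)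
    have h8 : (fun u : ℂ => (R u - (tc R 0 + tc R 1 * u + tc R 2 * u ^ 2 + tc R 3 * u ^ 3 +
        tc R 4 * u ^ 4)) / u ^ 3) =O[𝓝[≠] 0] fun u => u ^ 2 := by
      have h9 := h7.mul (Asymptotics.isBigO_refl (fun u : ℂ => (u ^ 3)⁻¹) (𝓝[≠] (0 : ℂ)))
      refine (h9.congr' ?_ ?_)
      · filter_upwards with u
        rw [div_eq_mul_inv]
      · filter_upwards [self_mem_nhdsWithin] with u hu
        have hu0 : u ≠ 0 := hu
        field_simp
    have h9 : (fun u : ℂ => tc R 4 * u) =O[𝓝[≠] 0] fun u => u :=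
      (Asymptotics.isBigO_refl _ _).const_mul_left _
    have h10 : (fun u : ℂ => u ^ 2) =O[𝓝[≠] 0] fun u => u := by
      have h11 : (fun u : ℂ => u) =O[𝓝[≠] (0 : ℂ)] fun _ => (1 : ℂ) := by
        have : Tendsto (fun u : ℂ => u) (𝓝[≠] 0) (𝓝 0) :=
          tendsto_id.mono_left nhdsWithin_le_nhds
        exact this.isBigO_one ℂ
      have h12 := (Asymptotics.isBigO_refl (fun u : ℂ => u) (𝓝[≠] (0 : ℂ))).mul h11
      simpa [sq] using h12
    refine ((h8.trans h10).add h9).congr' ?_ EventuallyEq.rfl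
    filter_upwards [self_mem_nhdsWithin] with u hu
    have hu0 : u ≠ 0 := hu
    rw [h0]
    field_simp
    ring
  have h7 : Tendsto (fun u : ℂ => u) (𝓝[≠] 0) (𝓝 0) := tendsto_id.mono_left nhdsWithin_le_nhds
  have h8 := h6.trans_tendsto h7
  have h9 := h8.add_const (tc R 3)
  rw [zero_add] at h9
  apply h9.congr
  intro u
  ring

lemma nv_psr (R : ℂ → ℂ) (u : ℝ) : nv R u = psr R u := by
  unfold nv psr
  rw [neg_div, one_div]

lemma nd_psd (R : ℂ → ℂ) (u : ℝ) : nd R u = psd R u := by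
  unfold nd psd
  rw [one_div]

/-- The three quantities of a step. -/
noncomputable def sa1 (R R' : ℂ → ℂ) : ℝ := rc R 1 - rc R' 1
noncomputable def sa2 (R R' : ℂ → ℂ) : ℝ := rc R' 2 - rc R 2
noncomputable def sa3 (R R' : ℂ → ℂ) : ℝ := rc R 3 - rc R' 3 - rc R' 1 * (rc R 1 - rc R' 1)

lemma sa_rel (R R' : ℂ → ℂ) : rc R 1 = rc R' 1 + sa1 R R' ∧ rc R 2 = rc R' 2 - sa2 R R' ∧
    rc R 3 = rc R' 3 + sa1 R R' * rc R' 1 + sa3 R R' := by
  unfold sa1 sa2 sa3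
  refine ⟨by ring, by ring, by ring⟩

lemma mom_sa (R R' : ℂ → ℂ) (W : ℝ) :
    mom (rc R 1) (rc R 2) (rc R 3) (rc R' 1) (rc R' 2) (rc R' 3) W =
      sa3 R R' - 2 * W * sa2 R R' + W ^ 2 * sa1 R R' := rfl

/-- **One step**: signs and the Cauchy-Schwarz inequality of the moments. -/
theorem step_moments {G' : Set ℂ} {ρ' : ℝ} {ψ' R' : ℂ → ℂ} (h : Psi G ρ ψ R)
    (h' : Psi G' ρ' ψ' R') (hsub : G' ⊆ G) (W : ℝ) :
    0 ≤ sa1 R R' ∧ 0 ≤ sa3 R R' - 2 * W * sa2 R R' + W ^ 2 * sa1 R R' ∧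
      (sa2 R R' - W * sa1 R R') ^ 2 ≤
        sa1 R R' * (sa3 R R' - 2 * W * sa2 R R' + W ^ 2 * sa1 R R') := by
  obtain ⟨T, hT⟩ := h.exists_inv
  obtain ⟨T', hT'⟩ := h'.exists_inv
  have hc : ∀ {G : Set ℂ} {ρ : ℝ} {ψ R : ℂ → ℂ}, Psi G ρ ψ R → rc R 1 = (deriv R 0).re := by
    intro G ρ ψ R h
    obtain ⟨d', e', h1⟩ := h.exists_tay
    exact ((psi_tay h).unique h1).1
  have hq := h.quot h' hsub hT
  have hi := h.quot_inv h' hsub hT hT'
  have hcf := h.quot_coef h' hT' (psi_tay h) (psi_tay h')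
  rw [← hc h, ← hc h'] at hq hi
  have h1 := hq.nonneg
  have h2 := Hyd.Inv.moments hq hi hcf W
  exact ⟨h1, h2.1, h2.2.1⟩

end germ

variable {D : Set ℂ} {a b : ℂ} {A₁ A₂ : Set ℂ} {A : Approx D a b A₁ A₂} {r0 : ℝ}
  {B : Base A r0} {w : Win B}

/-! ### The observable -/

/-- **[OBS] in terms of the germs.** -/
theorem obs_kap {pz : ℝ → ℝ} {C0 : ℝ} (hD : Pool.Agent.H81.Q1.IsJordanDomain D) (hab : a ≠ b)
    (hA : Pool.Agent.H81.Q1.IsArcs D a b A₁ A₂) (hS : w.Side) (hO : StObs B w pz C0) (hG : StGeo B w) :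
    ∀ k0, B.qb.1 ≤ k0 → w.q.1 ≤ k0 → ∀ ρ > 0, ∀ ε > 0, ∀ i : ℤ, 0 < i →
      i * mesh (w.k1 + 1) < w.l →
    ∃ r > 0, ∀ P : Par B, cfat B.o P.BB ⊆ Metric.ball b r → w.M0 ≤ P.M →
    ∃ K1, ∀ K, K1 ≤ K → ∀ᶠ n in atTop, ∀ ω, ω ⊆ (X0 A n).E → ∀ j,
      Adm w n ρ k0 (j + 1) ω →
      |w.h n i (B.X k0 n (j + 1) ω) / pz (A.δ n)⁻¹ -
        C0 * kap (AX B w (SDj B P k0 K n j ω)) (WX B w (SDj B P k0 K n j ω))
          (i * mesh (w.k1 + 1))| ≤ ε := by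
  intro k0 hk0 hwk ρ hρ ε hε i hi hil
  obtain ⟨r1, hr1, h1⟩ := hO hD hab hA hS k0 hk0 hwk ρ hρ ε hε i hi hil
  obtain ⟨r2, hr2, h2⟩ := hG hD hab hA hS k0 hk0 hwk ρ hρ
  refine ⟨min r1 r2, lt_min hr1 hr2, fun P hP hM => ?_⟩
  obtain ⟨K1, h1⟩ := h1 P (hP.trans (ball_subset_ball (min_le_left _ _))) hM
  obtain ⟨K2, h2⟩ := h2 P (hP.trans (ball_subset_ball (min_le_right _ _))) hM
  refine ⟨max (max K1 K2) w.k1, fun K hK => ?_⟩
  have hK1 : K1 ≤ K := (le_max_left _ _).trans ((le_max_left _ _).trans hK)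
  have hK2 : K2 ≤ K := (le_max_right _ _).trans ((le_max_left _ _).trans hK)
  have hK3 : w.k1 ≤ K := (le_max_right _ _).trans hK
  filter_upwards [h1 K hK1, h2 K hK2] with n hn1 hn2 ω hω j hF
  obtain ⟨nb, hb, h3⟩ := hn1 ω hω j hF
  have hgeo := hn2 ω hω j hF
  have hps : HasPsi B w (SDj B P k0 K n j ω) := hasPsi hb hK3 hgeo.box
  have hu0 : (0 : ℝ) < i * mesh (w.k1 + 1) := by
    have : (0 : ℝ) < i := by exact_mod_cast hi
    exact mul_pos this (mesh_pos _)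
  obtain ⟨h4, h5⟩ := near_X hb hK3 hps (i := i) (by rw [abs_of_pos hu0]; exact hil) hi.ne'
  have h6 := h3 _ _ _ _ (chartX hb hK3 hps) h4 h5
  rw [nd_psd, nv_psr] at h6
  exact h6

/-! ### The discrete chain -/

/-- **The discrete Loewner chain of one configuration.** -/
theorem mchainX {J : ℕ} {dd : ℕ → SD} (hps : ∀ j ≤ J, HasPsi B w (dd j))
    (hsub : ∀ j < J, GX B (dd (j + 1)) ⊆ GX B (dd j)) {α : ℝ} (hα : 0 < α) (x₀ : ℝ) :
    Pool.Agent.H96.M7.MChain J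
      (fun j => α ^ 2 * (rc (AX B w (dd 0)) 1 - rc (AX B w (dd j)) 1) / 2)
      (fun j => α * (WX B w (dd j) - x₀))
      (fun j => α ^ 4 * (sa3 (AX B w (dd j)) (AX B w (dd (j + 1))) -
        2 * WX B w (dd j) * sa2 (AX B w (dd j)) (AX B w (dd (j + 1))) +
        WX B w (dd j) ^ 2 * sa1 (AX B w (dd j)) (AX B w (dd (j + 1)))))
      (fun j => GX B (dd j)) (fun j z => α * (zX B w (dd j) z - x₀)) := by
  have h := mchain_of_psi (m := J) (D := fun j => GX B (dd j)) (G := fun j => nGX B w (dd j))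
    (b := w.p) (e₀ := uv w.k) (uv_ne _) (fun j _ u => Iff.rfl) (ρ := fun _ => w.l)
    (ψ := fun j => psiX B w (dd j)) (A := fun j => AX B w (dd j))
    (fun j hj => psiX_spec (hps j hj)) hsub
    (c := fun j => rc (AX B w (dd j)) 1) (d := fun j => rc (AX B w (dd j)) 2)
    (e := fun j => rc (AX B w (dd j)) 3) (fun j hj => psi_tay (psiX_spec (hps j hj)))
    (fun j => WX B w (dd j)) hα x₀
  exact h

/-- The same for the states of the chain of the interface. -/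
theorem mchain_geo {P : Par B} {k0 K n : ℕ} {ρ : ℝ} {ω : Finset (ℤ × ℤ)} {J : ℕ}
    (hK : w.k1 ≤ K) (hgeo : ∀ j ≤ J, GeoAt B w P k0 K n ρ ω j)
    (hF : ∀ j ≤ J, Adm w n ρ k0 (j + 1) ω) {α : ℝ} (hα : 0 < α) (x₀ : ℝ) :
    (∀ j ≤ J, HasPsi B w (SDj B P k0 K n j ω)) ∧
    Pool.Agent.H96.M7.MChain J
      (fun j => α ^ 2 * (rc (AX B w (SDj B P k0 K n 0 ω)) 1 -
        rc (AX B w (SDj B P k0 K n j ω)) 1) / 2)
      (fun j => α * (WX B w (SDj B P k0 K n j ω) - x₀))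
      (fun j => α ^ 4 * (sa3 (AX B w (SDj B P k0 K n j ω)) (AX B w (SDj B P k0 K n (j + 1) ω)) -
        2 * WX B w (SDj B P k0 K n j ω) *
          sa2 (AX B w (SDj B P k0 K n j ω)) (AX B w (SDj B P k0 K n (j + 1) ω)) +
        WX B w (SDj B P k0 K n j ω) ^ 2 *
          sa1 (AX B w (SDj B P k0 K n j ω)) (AX B w (SDj B P k0 K n (j + 1) ω))))
      (fun j => GX B (SDj B P k0 K n j ω)) (fun j z => α * (zX B w (SDj B P k0 K n j ω) z - x₀)) := by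
  have hps : ∀ j ≤ J, HasPsi B w (SDj B P k0 K n j ω) := by
    intro j hj
    obtain ⟨nb, hb⟩ := (hgeo j hj).nb
    exact hasPsi hb hK (hgeo j hj).box
  exact ⟨hps, mchainX (dd := fun j => SDj B P k0 K n j ω) hps
    (fun j hj => (hgeo j hj.le).anti (hF (j + 1) hj)) hα x₀⟩

end Pool.Agent.H83.M7
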